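import Pool.Agent.Y304.FT.Cmp

/-!
Axisymmetric flows (helper304): comparison of the circulation with powers of a scale function.
-/

set_option autoImplicit false

open MeasureTheory Set Metric Filter Topology
open scoped ContDiff

namespace Pool.Agent.Y304.FT

open H459R3.NS W221.NS Pool.Agent.TH305.DR Pool.Agent.TH305.AX

variable {ν T : ℝ} {u : ℝ → V → V} {p : ℝ → V → ℝ}

/-- A function `H` of the square of the distance to the axis which is a supersolution for the inflow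
profile `q`. -/
structure Scl (S : ℝ) (q H H₁ H₂ : ℝ → ℝ) : Prop where
  cont : ContinuousOn H (Ici 0)
  pos : ∀ σ, 0 < σ → 0 < H σ
  zero : H 0 = 0
  d1 : ∀ σ ∈ Ioo 0 S, HasDerivAt H (H₁ σ) σ
  d2 : ∀ σ ∈ Ioo 0 S, HasDerivAt H₁ (H₂ σ) σ
  c2 : ContinuousOn H₂ (Ioo 0 S)
  nn : ∀ σ ∈ Ioo 0 S, 0 ≤ H₁ σ
  ineq : ∀ σ ∈ Ioo 0 S, 4 * σ * H₂ σ + 2 * q σ * H₁ σ ≤ 0

/-- The logarithmic derivative of `H` with respect to the distance to the axis. -/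
noncomputable def lgd (H H₁ : ℝ → ℝ) (σ : ℝ) : ℝ := 2 * √σ * H₁ σ / H σ

section
variable {S : ℝ} {q H H₁ H₂ : ℝ → ℝ}

lemma Scl.nonneg (W : Scl S q H H₁ H₂) {σ : ℝ} (hσ : 0 ≤ σ) : 0 ≤ H σ := by
  rcases hσ.lt_or_eq with h | h
  · exact (W.pos σ h).le
  · rw [← h, W.zero]

lemma Scl.contDiffOn (W : Scl S q H H₁ H₂) : ContDiffOn ℝ 2 H (Ioo 0 S) := by
  have e1 : ∀ σ ∈ Ioo 0 S, deriv H σ = H₁ σ := fun σ hσ => (W.d1 σ hσ).deriv
  have e2 : ∀ σ ∈ Ioo 0 S, deriv H₁ σ = H₂ σ := fun σ hσ => (W.d2 σ hσ).deriv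
  have h1 : ContDiffOn ℝ 1 H₁ (Ioo 0 S) := by
    have h0 : ContDiffOn ℝ (0 + 1) H₁ (Ioo 0 S) := by
      rw [contDiffOn_succ_iff_deriv_of_isOpen isOpen_Ioo]
      refine ⟨fun σ hσ => (W.d2 σ hσ).differentiableAt.differentiableWithinAt, by simp, ?_⟩
      rw [contDiffOn_zero]
      exact W.c2.congr e2
    simpa using h0
  have h2 : ContDiffOn ℝ (1 + 1) H (Ioo 0 S) := by
    rw [contDiffOn_succ_iff_deriv_of_isOpen isOpen_Ioo]
    exact ⟨fun σ hσ => (W.d1 σ hσ).differentiableAt.differentiableWithinAt, by simp, h1.congr e1⟩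
  have e : (1 + 1 : WithTop ℕ∞) = 2 := one_add_one_eq_two
  rwa [e] at h2

/-- The pointwise inequality. -/
lemma key_ineq {ν β B B' g Q σ h h₁ h₂ qq : ℝ} (hν : 0 < ν) (hβ : 0 < β) (hB : 0 < B) (hσ : 0 < σ)
    (hh : 0 < h) (hh₁ : 0 ≤ h₁) (hineq : 4 * σ * h₂ + 2 * qq * h₁ ≤ 0)
    (hQ : -(ν * qq) - g * √σ ≤ Q)
    (hBd : β * (g * (2 * √σ * h₁ / h) - ν * (1 - β) * (2 * √σ * h₁ / h) ^ 2) * B ≤ B') :
    4 * ν * σ * (B * (h₂ * β * h ^ (β - 1) + h₁ * β * (h₁ * (β - 1) * h ^ (β - 1 - 1))))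
      - 2 * Q * (B * (h₁ * β * h ^ (β - 1))) ≤ B' * h ^ β := by
  have hp : 0 < h ^ β := Real.rpow_pos_of_pos hh β
  have e1 : h ^ (β - 1) = h ^ β / h := by rw [Real.rpow_sub_one hh.ne']
  have e2 : h ^ (β - 1 - 1) = h ^ β / h / h := by
    rw [Real.rpow_sub_one hh.ne', Real.rpow_sub_one hh.ne']
  obtain ⟨P, hP⟩ : ∃ P, P = h ^ β := ⟨_, rfl⟩
  obtain ⟨w, hw⟩ : ∃ w, w = 2 * √σ * h₁ / h := ⟨_, rfl⟩
  rw [← hP] at hp
  rw [e1, e2, ← hP]
  rw [← hw] at hBd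
  have hs : √σ ^ 2 = σ := Real.sq_sqrt hσ.le
  have hw2 : w ^ 2 = 4 * σ * h₁ ^ 2 / h ^ 2 := by
    rw [hw, div_pow, mul_pow, mul_pow, hs]
    ring
  have hw1 : √σ * h₁ / h = w / 2 := by rw [hw]; ring
  have e3 : 4 * ν * σ * (B * (h₂ * β * (P / h) + h₁ * β * (h₁ * (β - 1) * (P / h / h))))
      - 2 * Q * (B * (h₁ * β * (P / h)))
      = B * β * P * (ν * (4 * σ * h₂) / h - ν * (1 - β) * w ^ 2 - 2 * Q * h₁ / h) := by
    rw [hw2]
    field_simp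
    ring
  rw [e3]
  have h4 : -(2 * Q * h₁ / h) ≤ (2 * ν * qq * h₁) / h + g * w := by
    have h5 : -(2 * Q * h₁) ≤ 2 * (ν * qq + g * √σ) * h₁ := by nlinarith
    have h6 := div_le_div_of_nonneg_right h5 hh.le
    have h7 : 2 * (ν * qq + g * √σ) * h₁ / h = (2 * ν * qq * h₁) / h + g * w := by
      have : g * w = 2 * (g * (√σ * h₁ / h)) := by rw [hw1]; ring
      rw [this]
      ring
    rw [← h7]
    calc -(2 * Q * h₁ / h) = -(2 * Q * h₁) / h := by ring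
      _ ≤ _ := h6
  have h8 : ν * (4 * σ * h₂) / h + (2 * ν * qq * h₁) / h ≤ 0 := by
    have : ν * (4 * σ * h₂) / h + (2 * ν * qq * h₁) / h
        = ν * (4 * σ * h₂ + 2 * qq * h₁) / h := by ring
    rw [this]
    apply div_nonpos_of_nonpos_of_nonneg _ hh.le
    exact mul_nonpos_of_nonneg_of_nonpos hν.le hineq
  have h9 : ν * (4 * σ * h₂) / h - ν * (1 - β) * w ^ 2 - 2 * Q * h₁ / h
      ≤ g * w - ν * (1 - β) * w ^ 2 := by linarith
  have h10 : 0 ≤ B * β * P := by positivity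
  calc B * β * P * (ν * (4 * σ * h₂) / h - ν * (1 - β) * w ^ 2 - 2 * Q * h₁ / h)
      ≤ B * β * P * (g * w - ν * (1 - β) * w ^ 2) := mul_le_mul_of_nonneg_left h9 h10
    _ = (β * (g * w - ν * (1 - β) * w ^ 2) * B) * P := by ring
    _ ≤ B' * P := mul_le_mul_of_nonneg_right hBd hp.le

/-- Comparison with `B(t) H ^ β`. -/
theorem absB (hν : 0 < ν) (h : BSol ν T u p) (W : Scl S q H H₁ H₂) {M δ β : ℝ} (hM : 0 ≤ M)
    (hδ : 0 < δ) (hβ : 0 < β) {B B' g : ℝ → ℝ} (hBc : ContinuousOn B (Ico 0 T))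
    (hB0 : ∀ t ∈ Ico 0 T, 0 < B t) (hBd : ∀ t ∈ Ioo 0 T, HasDerivAt B (B' t) t)
    (hin : ∀ x, |circ (u 0) x| ≤ δ + M * (B 0 * H (sg x) ^ β))
    (hfail : ∀ t ∈ Ioo 0 T, ∀ x, 0 < sg x → δ + M * (B t * H (sg x) ^ β) < |circ (u t) x| →
      sg x < S ∧ -(ν * q (sg x)) - g t * √(sg x) ≤ x 0 * u t x 0 + x 1 * u t x 1 ∧
      β * (g t * lgd H H₁ (sg x) - ν * (1 - β) * lgd H H₁ (sg x) ^ 2) * B t ≤ B' t) :
    ∀ t ∈ Ico 0 T, ∀ x, |circ (u t) x| ≤ δ + M * (B t * H (sg x) ^ β) := by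
  apply cmpF hν h hM hδ (Φ := fun t σ => B t * H σ ^ β)
  · intro t ht σ hσ
    exact mul_nonneg (hB0 t ht).le (Real.rpow_nonneg (W.nonneg hσ) _)
  · have c1 : ContinuousOn (fun z : ℝ × ℝ => B z.1) (Ico 0 T ×ˢ Ici 0) :=
      hBc.comp continuousOn_fst fun z hz => hz.1
    have c2 : ContinuousOn (fun z : ℝ × ℝ => H z.2 ^ β) (Ico 0 T ×ˢ Ici 0) :=
      (W.cont.comp continuousOn_snd fun z hz => hz.2).rpow_const fun z _ => Or.inr hβ.le
    exact c1.mul c2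
  · exact hin
  · intro t ht x hx hlt
    obtain ⟨h1, h2, h3⟩ := hfail t ht x hx hlt
    have hm : sg x ∈ Ioo 0 S := ⟨hx, h1⟩
    have hHx := W.pos _ hx
    have hev : ∀ᶠ r in 𝓝 (sg x), r ∈ Ioo 0 S := Ioo_mem_nhds hx h1
    refine ⟨fun r => B t * H r ^ β, fun r => B t * (H₁ r * β * H r ^ (β - 1)),
      B t * (H₂ (sg x) * β * H (sg x) ^ (β - 1)
        + H₁ (sg x) * β * (H₁ (sg x) * (β - 1) * H (sg x) ^ (β - 1 - 1))),
      B' t * H (sg x) ^ β, fun τ => B τ * H (sg x) ^ β, ⟨?_, ?_, ?_, ?_, rfl, ?_, rfl, ?_⟩, ?_⟩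
    · apply contDiffAt_const.mul
      exact ((W.contDiffOn.contDiffAt (Ioo_mem_nhds hx h1)).rpow_const_of_ne hHx.ne')
    · filter_upwards [hev] with r hr
      exact ((W.d1 r hr).rpow_const (Or.inl (W.pos r hr.1).ne')).const_mul (B t)
    · have a1 := W.d2 _ hm
      have a2 := (W.d1 _ hm).rpow_const (p := β - 1) (Or.inl hHx.ne')
      refine (((a1.mul_const β).mul a2).const_mul (B t)).congr_deriv ?_
      ring
    · exact Eventually.of_forall fun r => le_rfl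
    · exact Eventually.of_forall fun r => le_rfl
    · exact (hBd t ht).mul_const _
    · exact key_ineq hν hβ (hB0 t (Ioo_subset_Ico_self ht)) hx hHx (W.nn _ hm) (W.ineq _ hm) h2 h3

end

end Pool.Agent.Y304.FT
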