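import Pool.Agent.Y304.FT.Cauchy

/-!
Axisymmetric flows (helper304): ancient solutions.
-/

set_option autoImplicit false

open MeasureTheory Set Metric Filter Topology
open scoped ContDiff

namespace Pool.Agent.Y304.FT

open H459R3.NS W221.NS Pool.Agent.TH305.DR Pool.Agent.TH305.AX

variable {ν T : ℝ} {u : ℝ → V → V} {p : ℝ → V → ℝ}

lemma bsol_restrict (h : BSol ν T u p) {T' : ℝ} (hT : T' ≤ T) : BSol ν T' u p where
  smooth_u := h.smooth_u.mono (prod_mono (Ico_subset_Ico_right hT) le_rfl)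
  smooth_p := h.smooth_p.mono (prod_mono (Ioo_subset_Ioo_right hT) le_rfl)
  divfree := fun t ht => h.divfree t ⟨ht.1, ht.2.trans_le hT⟩
  momentum := fun t ht => h.momentum t ⟨ht.1, ht.2.trans_le hT⟩
  axi := fun t ht => h.axi t ⟨ht.1, ht.2.trans_le hT⟩
  bdd := fun T'' hT'' => h.bdd T'' (hT''.trans_le hT)

section
variable {q H H₁ H₂ : ℝ → ℝ}

lemma scl_mono (W : ∀ S, Scl S q H H₁ H₂) : MonotoneOn H (Ici 0) := by
  apply monotoneOn_of_deriv_nonneg (convex_Ici 0) (W 0).cont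
  · intro x hx
    rw [interior_Ici, mem_Ioi] at hx
    exact ((W (x + 1)).d1 x ⟨hx, by linarith⟩).differentiableAt.differentiableWithinAt
  · intro x hx
    rw [interior_Ici, mem_Ioi] at hx
    rw [((W (x + 1)).d1 x ⟨hx, by linarith⟩).deriv]
    exact (W (x + 1)).nn x ⟨hx, by linarith⟩

/-- The bound of the circulation spreads. -/
theorem spread (hν : 0 < ν) (h : BSol ν T u p) (W : ∀ S, Scl S q H H₁ H₂)
    (hanti : AntitoneOn (lgd H H₁) (Ioi 0)) (hlp : ∀ σ, 0 < σ → 0 < lgd H H₁ σ)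
    {M δ : ℝ} (hM : ∀ t ∈ Ico 0 T, ∀ x, |circ (u t) x| ≤ M) (hδ : 0 < δ)
    {g : ℝ → ℝ} (hg : ContinuousOn g (Ico 0 T))
    (hcond : ∀ t ∈ Ioo 0 T, ∀ x, 0 < sg x → δ < |circ (u t) x| →
      -(ν * q (sg x)) - g t * √(sg x) ≤ x 0 * u t x 0 + x 1 * u t x 1)
    {R t₁ : ℝ} (hR : 0 < R) (ht₁ : t₁ ∈ Ioo 0 T)
    (hlong : 4 * R / (ν * lgd H H₁ ((2 * R + 1) ^ 2)) ≤ t₁) (x : V) :
    |circ (u t₁) x| ≤ δ + M * (Real.exp ((∫ s in (0 : ℝ)..t₁, g s ^ 2) / (2 * ν))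
      * (H (sg x) / H (R ^ 2)) ^ (1 / 2 : ℝ)) := by
  have hM0 : 0 ≤ M := (abs_nonneg _).trans (hM 0 ⟨le_rfl, ht₁.1.trans ht₁.2⟩ 0)
  have hmono := scl_mono W
  obtain ⟨U, hU0, hU⟩ := h.u_bdd (ht₁.1.trans ht₁.2)
  obtain ⟨η, hη0, hη1, hηU⟩ : ∃ η : ℝ, 0 < η ∧ η ≤ 1 ∧ 2 * η * U ≤ δ := by
    refine ⟨min 1 (δ / (2 * (U + 1))), lt_min one_pos (by positivity), min_le_left _ _, ?_⟩
    calc 2 * min 1 (δ / (2 * (U + 1))) * U ≤ 2 * (δ / (2 * (U + 1))) * (U + 1) := by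
          gcongr
          · exact min_le_right _ _
          · linarith
      _ = δ := by field_simp
  obtain ⟨κ, hκ⟩ : ∃ κ : ℝ, κ = R / t₁ := ⟨_, rfl⟩
  have hκ0 : 0 < κ := by rw [hκ]; exact div_pos hR ht₁.1
  obtain ⟨L, hL⟩ : ∃ L : ℝ, L = lgd H H₁ ((2 * R + 1) ^ 2) := ⟨_, rfl⟩
  have hL0 : 0 < L := by rw [hL]; exact hlp _ (by positivity)
  have hκL : κ ≤ ν * L / 4 := by
    rw [hκ, div_le_iff₀ ht₁.1]
    rw [← hL, div_le_iff₀ (by positivity)] at hlong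
    linarith
  obtain ⟨T', hT'1, hT'2, hT'3⟩ : ∃ T', t₁ < T' ∧ T' ≤ T ∧ T' ≤ 2 * t₁ :=
    ⟨min T (2 * t₁), lt_min ht₁.2 (by linarith [ht₁.1]), min_le_left _ _, min_le_right _ _⟩
  have h' := bsol_restrict h hT'2
  have hIco : ∀ t ∈ Ico 0 T', t ∈ Ico 0 T := fun t ht => ⟨ht.1, ht.2.trans_le hT'2⟩
  obtain ⟨r, hr⟩ : ∃ r : ℝ → ℝ, r = fun t => η + κ * t := ⟨_, rfl⟩
  have hr0 : ∀ t, 0 ≤ t → 0 < r t := fun t ht => by
    rw [hr]
    have := mul_nonneg hκ0.le ht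
    show 0 < η + κ * t
    linarith
  have hrle : ∀ t ∈ Ico 0 T', r t ≤ 2 * R + 1 := by
    intro t ht
    rw [hr]
    have h1 : κ * t ≤ κ * (2 * t₁) := mul_le_mul_of_nonneg_left (ht.2.le.trans hT'3) hκ0.le
    have h2 : κ * (2 * t₁) = 2 * R := by
      rw [hκ]
      have := ht₁.1.ne'
      field_simp
    show η + κ * t ≤ 2 * R + 1
    linarith
  obtain ⟨b, hb⟩ : ∃ b : ℝ → ℝ, b = fun τ => ∫ s in (0 : ℝ)..τ, g s ^ 2 := ⟨_, rfl⟩
  have hg' : ContinuousOn g (Ico 0 T') := hg.mono hIco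
  have hg2 : ContinuousOn (fun s => g s ^ 2) (Ico 0 T') := hg'.pow 2
  have hbc : ContinuousOn b (Ico 0 T') := by rw [hb]; exact prim_contOn hg2
  have hbd : ∀ t ∈ Ioo 0 T', HasDerivAt b (g t ^ 2) t := fun t ht => by
    rw [hb]
    exact prim_hd hg2 ht
  have hb0 : ∀ t ∈ Ico 0 T', 0 ≤ b t := fun t ht => by
    rw [hb]
    exact prim_nonneg (B := fun s => g s ^ 2) (fun s _ => sq_nonneg _) ht
  have hHr : ∀ t, 0 ≤ t → 0 < H (r t ^ 2) := fun t ht =>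
    (W 0).pos _ (pow_pos (hr0 t ht) 2)
  obtain ⟨B, hB⟩ : ∃ B : ℝ → ℝ, B = fun τ => Real.exp (b τ / (2 * ν))
      * H (r τ ^ 2) ^ (-(1 / 2) : ℝ) := ⟨_, rfl⟩
  have hB0 : ∀ t ∈ Ico 0 T', 0 < B t := fun t ht => by
    rw [hB]
    exact mul_pos (Real.exp_pos _) (Real.rpow_pos_of_pos (hHr t ht.1) _)
  have hform : ∀ t ∈ Ico 0 T', ∀ y, B t * H (sg y) ^ (1 / 2 : ℝ)
      = Real.exp (b t / (2 * ν)) * (H (sg y) / H (r t ^ 2)) ^ (1 / 2 : ℝ) := by
    intro t ht y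
    rw [hB, Real.div_rpow ((W 0).nonneg (sg_nonneg y)) (hHr t ht.1).le]
    show Real.exp (b t / (2 * ν)) * H (r t ^ 2) ^ (-(1 / 2) : ℝ) * H (sg y) ^ (1 / 2 : ℝ) = _
    rw [Real.rpow_neg (hHr t ht.1).le]
    ring
  have hrc : Continuous r := by rw [hr]; fun_prop
  have hBc : ContinuousOn B (Ico 0 T') := by
    rw [hB]
    apply (hbc.div_const _).rexp.mul
    apply ContinuousOn.rpow_const
    · exact (W 0).cont.comp (hrc.pow 2).continuousOn fun t _ => sq_nonneg (r t)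
    · exact fun t ht => Or.inl (hHr t ht.1).ne'
  have hBd : ∀ t ∈ Ioo 0 T', HasDerivAt B
      (B t * (g t ^ 2 / (2 * ν) - κ / 2 * lgd H H₁ (r t ^ 2))) t := by
    intro t ht
    have hrt := hr0 t ht.1.le
    have a1 : HasDerivAt r κ t := by
      rw [hr]
      have := ((hasDerivAt_id t).const_mul κ).const_add η
      simpa using this
    have a2 : HasDerivAt (fun τ => r τ ^ 2) (2 * r t * κ) t := by
      refine (a1.pow 2).congr_deriv ?_
      push_cast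
      ring
    have a3 : HasDerivAt (fun τ => H (r τ ^ 2)) (H₁ (r t ^ 2) * (2 * r t * κ)) t :=
      ((W (r t ^ 2 + 1)).d1 (r t ^ 2) ⟨by positivity, by linarith⟩).comp t a2
    have a4 := a3.rpow_const (p := (-(1 / 2) : ℝ)) (Or.inl (hHr t ht.1.le).ne')
    have a5 := (((hbd t ht).div_const (2 * ν)).exp).mul a4
    rw [hB]
    refine a5.congr_deriv ?_
    have hne := (hHr t ht.1.le).ne'
    have e1 : H (r t ^ 2) ^ (-(1 / 2) - 1 : ℝ) = H (r t ^ 2) ^ (-(1 / 2) : ℝ) / H (r t ^ 2) := by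
      rw [Real.rpow_sub_one hne]
    have e2 : lgd H H₁ (r t ^ 2) = 2 * r t * H₁ (r t ^ 2) / H (r t ^ 2) := by
      unfold lgd
      rw [Real.sqrt_sq hrt.le]
    rw [e1, e2]
    field_simp
    ring
  have hfin := absB hν h' (W ((2 * R + 1) ^ 2)) (M := M) (δ := δ) (β := 1 / 2) hM0 hδ (by norm_num)
    (B := B) (B' := fun t => B t * (g t ^ 2 / (2 * ν) - κ / 2 * lgd H H₁ (r t ^ 2))) (g := g)
    hBc hB0 hBd
    (by
      intro y
      have h00 : (0 : ℝ) ∈ Ico 0 T' := ⟨le_rfl, ht₁.1.trans hT'1⟩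
      have hr00 : r 0 = η := by rw [hr]; simp
      rcases le_total (η ^ 2) (sg y) with h1 | h1
      · rw [hform 0 h00 y, hr00]
        have h2 := hM 0 (hIco 0 h00) y
        have h3 : 1 ≤ (H (sg y) / H (η ^ 2)) ^ (1 / 2 : ℝ) := by
          apply Real.one_le_rpow _ (by norm_num)
          rw [one_le_div ((W 0).pos _ (by positivity))]
          exact hmono (sq_nonneg η) (sg_nonneg y) h1
        have h4 : 1 ≤ Real.exp (b 0 / (2 * ν)) := by
          apply Real.one_le_exp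
          have := hb0 0 h00
          positivity
        have h5 : M * (1 * 1) ≤ M * (Real.exp (b 0 / (2 * ν))
            * (H (sg y) / H (η ^ 2)) ^ (1 / 2 : ℝ)) := by gcongr
        linarith
      · have h2 := circ_le (u 0) y
        have h3 : √(sg y) ≤ η := by
          rw [← Real.sqrt_sq hη0.le]
          exact Real.sqrt_le_sqrt h1
        have h4 : 2 * √(sg y) * ‖u 0 y‖ ≤ 2 * η * U := by
          have := hU 0 ⟨le_rfl, le_rfl⟩ y
          gcongr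
        have h5 : 0 ≤ M * (B 0 * H (sg y) ^ (1 / 2 : ℝ)) := mul_nonneg hM0
          (mul_nonneg (hB0 0 h00).le (Real.rpow_nonneg ((W 0).nonneg (sg_nonneg y)) _))
        linarith)
    (by
      intro t ht y hy hlt
      have ht' := Ioo_subset_Ico_self ht
      have hBn : 0 ≤ M * (B t * H (sg y) ^ (1 / 2 : ℝ)) := mul_nonneg hM0
        (mul_nonneg (hB0 t ht').le (Real.rpow_nonneg ((W 0).nonneg (sg_nonneg y)) _))
      have hyr : sg y < r t ^ 2 := by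
        by_contra hcon
        push Not at hcon
        rw [hform t ht' y] at hlt
        have h2 := hM t (hIco t ht') y
        have h3 : 1 ≤ (H (sg y) / H (r t ^ 2)) ^ (1 / 2 : ℝ) := by
          apply Real.one_le_rpow _ (by norm_num)
          rw [one_le_div (hHr t ht'.1)]
          exact hmono (sq_nonneg (r t)) (sg_nonneg y) hcon
        have h4 : 1 ≤ Real.exp (b t / (2 * ν)) := by
          apply Real.one_le_exp
          have := hb0 t ht'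
          positivity
        have h5 : M * (1 * 1) ≤ M * (Real.exp (b t / (2 * ν))
            * (H (sg y) / H (r t ^ 2)) ^ (1 / 2 : ℝ)) := by gcongr
        linarith
      have hrt := hr0 t ht'.1
      have hr2 : r t ^ 2 ≤ (2 * R + 1) ^ 2 := pow_le_pow_left₀ hrt.le (hrle t ht') 2
      refine ⟨hyr.trans_le hr2, hcond t ⟨ht.1, ht.2.trans_le hT'2⟩ y hy (by linarith), ?_⟩
      have w1 : lgd H H₁ (r t ^ 2) ≤ lgd H H₁ (sg y) :=
        hanti hy (show (0 : ℝ) < r t ^ 2 by positivity) hyr.le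
      have w2 : L ≤ lgd H H₁ (sg y) := by
        rw [hL]
        exact hanti hy (show (0 : ℝ) < (2 * R + 1) ^ 2 by positivity) (hyr.le.trans hr2)
      have w3 : 0 < lgd H H₁ (r t ^ 2) := hlp _ (by positivity)
      obtain ⟨w, hw⟩ : ∃ w, w = lgd H H₁ (sg y) := ⟨_, rfl⟩
      obtain ⟨l, hl⟩ : ∃ l, l = lgd H H₁ (r t ^ 2) := ⟨_, rfl⟩
      rw [← hw] at w1 w2
      rw [← hl] at w1 w3
      rw [← hw, ← hl, mul_comm (B t)]
      apply mul_le_mul_of_nonneg_right _ (hB0 t ht').le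
      have h6 : κ * l ≤ ν * w ^ 2 / 4 := by
        calc κ * l ≤ (ν * L / 4) * w := mul_le_mul hκL w1 w3.le (by positivity)
          _ ≤ (ν * w / 4) * w := by
            have : 0 ≤ w := hL0.le.trans w2
            gcongr
          _ = _ := by ring
      have h7 : g t * w ≤ g t ^ 2 / ν + ν * w ^ 2 / 4 := by
        have : 0 ≤ (g t - ν * w / 2) ^ 2 / ν := by positivity
        have e : (g t - ν * w / 2) ^ 2 / ν = g t ^ 2 / ν + ν * w ^ 2 / 4 - g t * w := by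
          field_simp
          ring
        linarith
      have e2 : g t ^ 2 / (2 * ν) = g t ^ 2 / ν / 2 := by field_simp
      rw [e2]
      nlinarith) t₁ ⟨ht₁.1.le, hT'1⟩ x
  have ht₁' : t₁ ∈ Ico 0 T' := ⟨ht₁.1.le, hT'1⟩
  rw [hform t₁ ht₁' x] at hfin
  have hrt₁ : R ≤ r t₁ := by
    rw [hr]
    have : κ * t₁ = R := by
      rw [hκ]
      have := ht₁.1.ne'
      field_simp
    show R ≤ η + κ * t₁
    linarith
  have hHR : H (R ^ 2) ≤ H (r t₁ ^ 2) :=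
    hmono (sq_nonneg R) (sq_nonneg (r t₁)) (pow_le_pow_left₀ hR.le hrt₁ 2)
  have hHR0 : 0 < H (R ^ 2) := (W 0).pos _ (by positivity)
  have h8 : (H (sg x) / H (r t₁ ^ 2)) ^ (1 / 2 : ℝ) ≤ (H (sg x) / H (R ^ 2)) ^ (1 / 2 : ℝ) := by
    apply Real.rpow_le_rpow (div_nonneg ((W 0).nonneg (sg_nonneg x)) (hHr t₁ ht₁.1.le).le) _
      (by norm_num)
    exact div_le_div_of_nonneg_left ((W 0).nonneg (sg_nonneg x)) hHR0 hHR
  have h9 : M * (Real.exp (b t₁ / (2 * ν)) * (H (sg x) / H (r t₁ ^ 2)) ^ (1 / 2 : ℝ))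
      ≤ M * (Real.exp (b t₁ / (2 * ν)) * (H (sg x) / H (R ^ 2)) ^ (1 / 2 : ℝ)) := by gcongr
  rw [hb] at h9 hfin
  exact hfin.trans (by linarith)

end

/-- **Ancient solutions.** -/
theorem ancF (hν : 0 < ν)
    (h : ∀ t₀ < 0, BSol ν (-t₀) (fun t => u (t₀ + t)) (fun t => p (t₀ + t))) {M : ℝ}
    (hM : ∀ t < 0, ∀ x, |circ (u t) x| ≤ M)
    (hcond : ∀ δ > 0, ∃ q H H₁ H₂ g : ℝ → ℝ, (∀ S, Scl S q H H₁ H₂) ∧
      AntitoneOn (lgd H H₁) (Ioi 0) ∧ (∀ σ, 0 < σ → 0 < lgd H H₁ σ) ∧ Tendsto H atTop atTop ∧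
      ContinuousOn g (Iio 0) ∧
      (∀ t < 0, ∃ C : ℝ, ∀ t₀ < t, ∫ s in t₀..t, g s ^ 2 ≤ C) ∧
      ∀ t < 0, ∀ x, 0 < sg x → δ < |circ (u t) x| →
        -(ν * q (sg x)) - g t * √(sg x) ≤ x 0 * u t x 0 + x 1 * u t x 1) :
    ∀ t < 0, ∀ x, circ (u t) x = 0 := by
  intro t ht x
  have hM0 : 0 ≤ M := (abs_nonneg _).trans (hM t ht x)
  rw [← abs_nonpos_iff]
  apply le_of_forall_pos_le_add
  intro d hd
  rw [zero_add]
  obtain ⟨q, H, H₁, H₂, g, W, hanti, hlp, hH, hg, hgC, hc⟩ := hcond (d / 2) (by positivity)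
  obtain ⟨C, hC⟩ := hgC t ht
  have hHx : 0 ≤ H (sg x) := (W 0).nonneg (sg_nonneg x)
  have hlim : Tendsto (fun R : ℝ => M * (Real.exp (C / (2 * ν))
      * (H (sg x) / H (R ^ 2)) ^ (1 / 2 : ℝ))) atTop
      (𝓝 (M * (Real.exp (C / (2 * ν)) * (0 : ℝ) ^ (1 / 2 : ℝ)))) := by
    apply Tendsto.const_mul
    apply Tendsto.const_mul
    apply Tendsto.rpow_const
    · exact tendsto_const_nhds.div_atTop (hH.comp (tendsto_pow_atTop (by norm_num)))
    · exact Or.inr (by norm_num)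
  rw [Real.zero_rpow (by norm_num), mul_zero, mul_zero] at hlim
  obtain ⟨R, hR1, hR2⟩ := ((hlim.eventually (gt_mem_nhds (show (0 : ℝ) < d / 2 by positivity))).and
    (eventually_gt_atTop 0)).exists
  have hL : 0 < lgd H H₁ ((2 * R + 1) ^ 2) := hlp _ (by positivity)
  obtain ⟨τ, hτ⟩ : ∃ τ : ℝ, τ = 4 * R / (ν * lgd H H₁ ((2 * R + 1) ^ 2)) := ⟨_, rfl⟩
  have hτ0 : 0 < τ := by rw [hτ]; positivity
  obtain ⟨t₀, ht₀⟩ : ∃ t₀ : ℝ, t₀ = t - τ := ⟨_, rfl⟩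
  have ht₀0 : t₀ < 0 := by linarith
  have hmem : t - t₀ ∈ Ioo 0 (-t₀) := ⟨by linarith, by linarith⟩
  have key := spread hν (h t₀ ht₀0) W hanti hlp (M := M) (δ := d / 2)
    (fun s hs y => hM (t₀ + s) (by linarith [hs.2]) y) (by positivity)
    (g := fun s => g (t₀ + s))
    (hg.comp (by fun_prop) fun s hs => by
      show t₀ + s < 0
      linarith [hs.2])
    (fun s hs y hy hyd => hc (t₀ + s) (by linarith [hs.2]) y hy hyd) hR2 hmem
    (by rw [← hτ, ht₀]; linarith) x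
  have e : t₀ + (t - t₀) = t := by ring
  have hint : (∫ s in (0 : ℝ)..(t - t₀), g (t₀ + s) ^ 2) = ∫ s in t₀..t, g s ^ 2 := by
    rw [intervalIntegral.integral_comp_add_left (fun s => g s ^ 2) t₀]
    congr 1 <;> ring
  simp only [e] at key
  rw [hint] at key
  have h1 : (∫ s in t₀..t, g s ^ 2) / (2 * ν) ≤ C / (2 * ν) :=
    div_le_div_of_nonneg_right (hC t₀ (by linarith)) (by positivity)
  have hHR : 0 < H (R ^ 2) := (W 0).pos _ (by positivity)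
  have h2 : M * (Real.exp ((∫ s in t₀..t, g s ^ 2) / (2 * ν))
      * (H (sg x) / H (R ^ 2)) ^ (1 / 2 : ℝ)) ≤ M * (Real.exp (C / (2 * ν))
      * (H (sg x) / H (R ^ 2)) ^ (1 / 2 : ℝ)) := by
    have h3 := Real.exp_le_exp.2 h1
    have h4 : 0 ≤ (H (sg x) / H (R ^ 2)) ^ (1 / 2 : ℝ) :=
      Real.rpow_nonneg (div_nonneg hHx hHR.le) _
    gcongr
  linarith

end Pool.Agent.Y304.FT
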