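import Pool.Agent.Y304.FT.Abs

/-!
Axisymmetric flows (helper304): modulus of continuity of the circulation at the axis.
-/

set_option autoImplicit false

open MeasureTheory Set Metric Filter Topology
open scoped ContDiff

namespace Pool.Agent.Y304.FT

open H459R3.NS W221.NS Pool.Agent.TH305.DR Pool.Agent.TH305.AX

variable {ν T : ℝ} {u : ℝ → V → V} {p : ℝ → V → ℝ}

/-- The maximum principle. -/
theorem maxpr (hν : 0 < ν) (h : BSol ν T u p) {M : ℝ} (hin : ∀ x, |circ (u 0) x| ≤ M) :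
    ∀ t ∈ Ico 0 T, ∀ x, |circ (u t) x| ≤ M := by
  intro t ht x
  have hM : 0 ≤ M := (abs_nonneg _).trans (hin x)
  apply le_of_forall_pos_le_add
  intro δ hδ
  have h1 := cmpF hν h hM hδ (Φ := fun _ _ => 1) (fun _ _ _ _ => zero_le_one)
    continuousOn_const (fun x => by
      have := hin x
      linarith)
    (fun t ht x hx _ => ⟨fun _ => 1, fun _ => 0, 0, 0, fun _ => 1,
      ⟨contDiffAt_const, Eventually.of_forall fun r => hasDerivAt_const _ _,
        hasDerivAt_const _ _, Eventually.of_forall fun _ => le_rfl, rfl,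
        Eventually.of_forall fun _ => le_rfl, rfl, hasDerivAt_const _ _⟩, by simp⟩) t ht x
  linarith

lemma prim_contOn {f : ℝ → ℝ} (hf : ContinuousOn f (Ico 0 T)) :
    ContinuousOn (fun τ => ∫ r in (0 : ℝ)..τ, f r) (Ico 0 T) := by
  intro τ hτ
  obtain ⟨τ', hτ'1, hτ'2⟩ := exists_between hτ.2
  have h1 := prim_cont hf (t := τ') ⟨hτ.1.trans hτ'1.le, hτ'2⟩
  refine (h1 τ ⟨hτ.1, hτ'1.le⟩).mono_of_mem_nhdsWithin ?_
  rw [mem_nhdsWithin]
  exact ⟨Iio τ', isOpen_Iio, hτ'1, fun y hy => ⟨hy.2.1, hy.1.le⟩⟩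

/-- Young's inequality. -/
lemma young {ν β g w : ℝ} (hν : 0 < ν) (hβ : 0 < β) (hβ1 : β < 1) :
    β * (g * w - ν * (1 - β) * w ^ 2) ≤ β / (4 * ν * (1 - β)) * g ^ 2 := by
  have h1 : 0 < 1 - β := by linarith
  have h2 : g * w - ν * (1 - β) * w ^ 2 ≤ g ^ 2 / (4 * ν * (1 - β)) := by
    rw [le_div_iff₀ (by positivity)]
    nlinarith [sq_nonneg (g - 2 * ν * (1 - β) * w)]
  calc β * (g * w - ν * (1 - β) * w ^ 2) ≤ β * (g ^ 2 / (4 * ν * (1 - β))) :=
        mul_le_mul_of_nonneg_left h2 hβ.le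
    _ = _ := by ring

section
variable {S : ℝ} {q H H₁ H₂ : ℝ → ℝ}

/-- **The Cauchy problem.** -/
theorem cauchy (hν : 0 < ν) (h : BSol ν T u p) (W : Scl S q H H₁ H₂) (hS : 0 < S)
    (hfar : ∀ σ, S ≤ σ → H S ≤ H σ) {M β : ℝ} (hβ : 0 < β) (hβ1 : β < 1)
    {g : ℝ → ℝ} (hg : ContinuousOn g (Ico 0 T)) (hin : ∀ x, |circ (u 0) x| ≤ M)
    (hin' : ∀ x, sg x ≤ S → |circ (u 0) x| ≤ M * (H (sg x) / H S) ^ β)
    (hcond : ∀ t ∈ Ioo 0 T, ∀ x, 0 < sg x → sg x < S →
      M * Real.exp (β / (4 * ν * (1 - β)) * ∫ s in (0 : ℝ)..t, g s ^ 2) * (H (sg x) / H S) ^ β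
        < |circ (u t) x| →
      -(ν * q (sg x)) - g t * √(sg x) ≤ x 0 * u t x 0 + x 1 * u t x 1) :
    ∀ t ∈ Ico 0 T, ∀ x, sg x ≤ S → |circ (u t) x| ≤
      M * Real.exp (β / (4 * ν * (1 - β)) * ∫ s in (0 : ℝ)..t, g s ^ 2)
        * (H (sg x) / H S) ^ β := by
  have hM : 0 ≤ M := (abs_nonneg _).trans (hin 0)
  have hHS := W.pos S hS
  have hmax := maxpr hν h hin
  obtain ⟨c, hc⟩ : ∃ c : ℝ, c = β / (4 * ν * (1 - β)) := ⟨_, rfl⟩
  have hc0 : 0 < c := by
    rw [hc]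
    have : 0 < 1 - β := by linarith
    positivity
  obtain ⟨b, hb⟩ : ∃ b : ℝ → ℝ, b = fun τ => ∫ s in (0 : ℝ)..τ, g s ^ 2 := ⟨_, rfl⟩
  have hg2 : ContinuousOn (fun s => g s ^ 2) (Ico 0 T) := hg.pow 2
  have hbc : ContinuousOn b (Ico 0 T) := by rw [hb]; exact prim_contOn hg2
  have hbd : ∀ t ∈ Ioo 0 T, HasDerivAt b (g t ^ 2) t := fun t ht => by
    rw [hb]
    exact prim_hd hg2 ht
  have hb0 : ∀ t ∈ Ico 0 T, 0 ≤ b t := fun t ht => by
    rw [hb]
    exact prim_nonneg (B := fun s => g s ^ 2) (fun s _ => sq_nonneg _) ht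
  obtain ⟨B, hB⟩ : ∃ B : ℝ → ℝ, B = fun τ => Real.exp (c * b τ) * (H S ^ β)⁻¹ := ⟨_, rfl⟩
  have hHSβ : 0 < H S ^ β := Real.rpow_pos_of_pos hHS β
  have hform : ∀ t x, M * (B t * H (sg x) ^ β)
      = M * Real.exp (β / (4 * ν * (1 - β)) * ∫ s in (0 : ℝ)..t, g s ^ 2)
        * (H (sg x) / H S) ^ β := by
    intro t x
    rw [hB, Real.div_rpow (W.nonneg (sg_nonneg x)) hHS.le, hb, hc]
    ring
  intro t ht x hx
  apply le_of_forall_pos_le_add
  intro δ hδ
  rw [← hform, add_comm]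
  refine absB hν h W hM hδ hβ (B := B) (B' := fun t => c * g t ^ 2 * B t) (g := g) ?_ ?_ ?_ ?_ ?_
    t ht x
  · rw [hB]
    exact ((continuousOn_const.mul hbc).rexp).mul continuousOn_const
  · intro t _
    rw [hB]
    positivity
  · intro t ht
    rw [hB]
    refine ((((hbd t ht).const_mul c).exp).mul_const _).congr_deriv ?_
    ring
  · intro y
    rw [hform, intervalIntegral.integral_same, mul_zero, Real.exp_zero, mul_one]
    rcases le_total (sg y) S with h1 | h1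
    · have := hin' y h1
      linarith
    · have h2 := hin y
      have h3 : 1 ≤ (H (sg y) / H S) ^ β := by
        apply Real.one_le_rpow _ hβ.le
        rw [one_le_div hHS]
        exact hfar _ h1
      have h4 := mul_le_mul_of_nonneg_left h3 hM
      linarith
  · intro t ht y hy hlt
    have hlt' : M * Real.exp (β / (4 * ν * (1 - β)) * ∫ s in (0 : ℝ)..t, g s ^ 2)
        * (H (sg y) / H S) ^ β < |circ (u t) y| := by
      rw [← hform]
      linarith
    have hyS : sg y < S := by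
      by_contra hcon
      push Not at hcon
      have h2 := hmax t (Ioo_subset_Ico_self ht) y
      have h3 : 1 ≤ (H (sg y) / H S) ^ β := by
        apply Real.one_le_rpow _ hβ.le
        rw [one_le_div hHS]
        exact hfar _ hcon
      have h5 : 1 ≤ Real.exp (β / (4 * ν * (1 - β)) * ∫ s in (0 : ℝ)..t, g s ^ 2) := by
        apply Real.one_le_exp
        rw [← hc]
        have := hb0 t (Ioo_subset_Ico_self ht)
        rw [hb] at this
        exact mul_nonneg hc0.le this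
      have h6 : M * 1 * 1 ≤ M * Real.exp (β / (4 * ν * (1 - β)) * ∫ s in (0 : ℝ)..t, g s ^ 2)
          * (H (sg y) / H S) ^ β := by gcongr
      linarith
    refine ⟨hyS, hcond t ht y hy hyS hlt', ?_⟩
    have h7 := young (g := g t) (w := lgd H H₁ (sg y)) hν hβ hβ1
    rw [← hc] at h7
    have hBt : 0 ≤ B t := by rw [hB]; positivity
    exact mul_le_mul_of_nonneg_right h7 hBt

end

end Pool.Agent.Y304.FT
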