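import Pool.Agent.Y304.FT.Anc

/-!
Axisymmetric flows (helper304): the scale function of an inflow profile.
-/

set_option autoImplicit false

open MeasureTheory Set Metric Filter Topology
open scoped ContDiff

namespace Pool.Agent.Y304.FT

open H459R3.NS W221.NS Pool.Agent.TH305.DR Pool.Agent.TH305.AX

/-- The scale density `exp (∫_ρ^1 (q(s) - 1) / s ds)` of the inflow profile `q`. -/
noncomputable def scd (q : ℝ → ℝ) (ρ : ℝ) : ℝ := Real.exp (∫ s in ρ..1, (q s - 1) / s)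

/-- The scale function `∫_0^ρ scd q`. -/
noncomputable def scf (q : ℝ → ℝ) (ρ : ℝ) : ℝ := ∫ s in (0 : ℝ)..ρ, scd q s

section
variable {q : ℝ → ℝ}

lemma scd_pos (ρ : ℝ) : 0 < scd q ρ := Real.exp_pos _

lemma rat_cont (hq : ContinuousOn q (Ioi 0)) : ContinuousOn (fun s => (q s - 1) / s) (Ioi 0) :=
  (hq.sub continuousOn_const).div continuousOn_id fun _ hs => (ne_of_gt hs)

lemma scd_hd (hq : ContinuousOn q (Ioi 0)) {ρ : ℝ} (hρ : 0 < ρ) :
    HasDerivAt (scd q) (scd q ρ * (-((q ρ - 1) / ρ))) ρ := by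
  have hc := rat_cont hq
  have hi : IntervalIntegrable (fun s => (q s - 1) / s) volume ρ 1 := by
    apply ContinuousOn.intervalIntegrable
    exact hc.mono fun s hs => (lt_min hρ one_pos).trans_le hs.1
  have h1 := intervalIntegral.integral_hasDerivAt_left hi
    (hc.stronglyMeasurableAtFilter isOpen_Ioi ρ hρ) (hc.continuousAt (Ioi_mem_nhds hρ))
  exact h1.exp

lemma scd_cont (hq : ContinuousOn q (Ioi 0)) : ContinuousOn (scd q) (Ioi 0) :=
  fun _ hρ => (scd_hd hq hρ).continuousAt.continuousWithinAt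

lemma scd_int (hq : ContinuousOn q (Ioi 0)) (h01 : IntervalIntegrable (scd q) volume 0 1) {ρ : ℝ}
    (hρ : 0 ≤ ρ) : IntervalIntegrable (scd q) volume 0 ρ := by
  rcases hρ.lt_or_eq with h | h
  · refine h01.trans ?_
    apply ContinuousOn.intervalIntegrable
    exact (scd_cont hq).mono fun s hs => (lt_min one_pos h).trans_le hs.1
  · rw [← h]

lemma scf_hd (hq : ContinuousOn q (Ioi 0)) (h01 : IntervalIntegrable (scd q) volume 0 1) {ρ : ℝ}
    (hρ : 0 < ρ) : HasDerivAt (scf q) (scd q ρ) ρ :=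
  intervalIntegral.integral_hasDerivAt_right (scd_int hq h01 hρ.le)
    ((scd_cont hq).stronglyMeasurableAtFilter isOpen_Ioi ρ hρ)
    ((scd_cont hq).continuousAt (Ioi_mem_nhds hρ))

lemma scf_zero : scf q 0 = 0 := intervalIntegral.integral_same

lemma scf_pos (hq : ContinuousOn q (Ioi 0)) (h01 : IntervalIntegrable (scd q) volume 0 1) {ρ : ℝ}
    (hρ : 0 < ρ) : 0 < scf q ρ :=
  intervalIntegral.intervalIntegral_pos_of_pos_on (scd_int hq h01 hρ.le) (fun s _ => scd_pos s) hρ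

lemma scf_cont (hq : ContinuousOn q (Ioi 0)) (h01 : IntervalIntegrable (scd q) volume 0 1) :
    ContinuousOn (scf q) (Ici 0) := by
  intro ρ hρ
  have hρ' : (0 : ℝ) ≤ ρ := hρ
  have h1 : IntegrableOn (scd q) (uIcc 0 (ρ + 1)) := by
    rw [uIcc_of_le (by linarith), integrableOn_Icc_iff_integrableOn_Ioc,
      ← intervalIntegrable_iff_integrableOn_Ioc_of_le (by linarith)]
    exact scd_int hq h01 (by linarith)
  have h2 := intervalIntegral.continuousOn_primitive_interval h1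
  rw [uIcc_of_le (by linarith)] at h2
  refine (h2 ρ ⟨hρ', by linarith⟩).mono_of_mem_nhdsWithin ?_
  rw [mem_nhdsWithin]
  exact ⟨Iio (ρ + 1), isOpen_Iio, by simp, fun y hy => ⟨hy.2, le_of_lt hy.1⟩⟩

lemma scl_scf (hq : ContinuousOn q (Ioi 0)) (h1q : ∀ ρ, 0 < ρ → 1 ≤ q ρ)
    (h01 : IntervalIntegrable (scd q) volume 0 1) (S : ℝ) :
    Scl S (fun σ => q (√σ)) (fun σ => scf q (√σ)) (fun σ => scd q (√σ) / (2 * √σ))
      (fun σ => -(q (√σ) * scd q (√σ)) / (4 * √σ ^ 3)) where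
  cont := (scf_cont hq h01).comp Real.continuous_sqrt.continuousOn fun σ _ => Real.sqrt_nonneg σ
  pos := fun σ hσ => scf_pos hq h01 (Real.sqrt_pos.2 hσ)
  zero := by
    show scf q (√0) = 0
    rw [Real.sqrt_zero, scf_zero]
  d1 := fun σ hσ => by
    have hs := Real.sqrt_pos.2 hσ.1
    have h1 := (scf_hd hq h01 hs).comp σ (Real.hasDerivAt_sqrt hσ.1.ne')
    refine h1.congr_deriv ?_
    ring
  d2 := fun σ hσ => by
    have hs := Real.sqrt_pos.2 hσ.1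
    have h0 := Real.hasDerivAt_sqrt hσ.1.ne'
    have h1 := (scd_hd hq hs).comp σ h0
    have h2 := h1.div (h0.const_mul 2) (by positivity)
    refine h2.congr_deriv ?_
    simp only [Function.comp_apply]
    field_simp
    ring
  c2 := by
    have hm : MapsTo (fun σ => √σ) (Ioo 0 S) (Ioi 0) := fun σ hσ => Real.sqrt_pos.2 hσ.1
    have a1 := hq.comp Real.continuous_sqrt.continuousOn hm
    have a2 := (scd_cont hq).comp Real.continuous_sqrt.continuousOn hm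
    refine ((a1.mul a2).neg).div (by fun_prop) fun σ hσ => ?_
    have := Real.sqrt_pos.2 hσ.1
    positivity
  nn := fun σ hσ => by
    have hs := Real.sqrt_pos.2 hσ.1
    have := scd_pos (q := q) (√σ)
    positivity
  ineq := fun σ hσ => by
    have hs := Real.sqrt_pos.2 hσ.1
    have e : √σ ^ 2 = σ := Real.sq_sqrt hσ.1.le
    obtain ⟨ρ, hρ⟩ : ∃ ρ, ρ = √σ := ⟨_, rfl⟩
    rw [← hρ] at hs e ⊢
    rw [← e]
    apply le_of_eq
    field_simp
    ring

lemma lgd_scf {σ : ℝ} (hσ : 0 < σ) :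
    lgd (fun σ => scf q (√σ)) (fun σ => scd q (√σ) / (2 * √σ)) σ = scd q (√σ) / scf q (√σ) := by
  have hs := Real.sqrt_pos.2 hσ
  unfold lgd
  have : 2 * √σ * (scd q (√σ) / (2 * √σ)) = scd q (√σ) := by field_simp
  rw [this]

lemma scd_anti (hq : ContinuousOn q (Ioi 0)) (h1q : ∀ ρ, 0 < ρ → 1 ≤ q ρ) :
    AntitoneOn (scd q) (Ioi 0) := by
  apply antitoneOn_of_deriv_nonpos (convex_Ioi 0) (scd_cont hq)
  · intro x hx
    rw [interior_Ioi] at hx
    exact (scd_hd hq hx).differentiableAt.differentiableWithinAt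
  · intro x hx
    rw [interior_Ioi] at hx
    rw [(scd_hd hq hx).deriv]
    have h1 := h1q x hx
    have h2 := scd_pos (q := q) x
    have h3 : 0 ≤ (q x - 1) / x := div_nonneg (by linarith) (le_of_lt hx)
    nlinarith

lemma scf_mono (hq : ContinuousOn q (Ioi 0)) (h01 : IntervalIntegrable (scd q) volume 0 1) :
    MonotoneOn (scf q) (Ici 0) := by
  apply monotoneOn_of_deriv_nonneg (convex_Ici 0) (scf_cont hq h01)
  · intro x hx
    rw [interior_Ici] at hx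
    exact (scf_hd hq h01 hx).differentiableAt.differentiableWithinAt
  · intro x hx
    rw [interior_Ici] at hx
    rw [(scf_hd hq h01 hx).deriv]
    exact (scd_pos x).le

lemma lgd_anti (hq : ContinuousOn q (Ioi 0)) (h1q : ∀ ρ, 0 < ρ → 1 ≤ q ρ)
    (h01 : IntervalIntegrable (scd q) volume 0 1) :
    AntitoneOn (lgd (fun σ => scf q (√σ)) (fun σ => scd q (√σ) / (2 * √σ))) (Ioi 0) := by
  intro a ha b hb hab
  rw [lgd_scf ha, lgd_scf hb]
  have ha' := Real.sqrt_pos.2 ha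
  have hb' := Real.sqrt_pos.2 hb
  have hab' := Real.sqrt_le_sqrt hab
  have h1 := scd_anti hq h1q ha' hb' hab'
  have h2 := scf_mono hq h01 ha'.le hb'.le hab'
  exact div_le_div₀ (scd_pos _).le h1 (scf_pos hq h01 ha') h2

variable {ν T : ℝ} {u : ℝ → V → V} {p : ℝ → V → ℝ}

/-- **The Cauchy problem, general profile.** -/
theorem cauchyFeller (hν : 0 < ν) (h : BSol ν T u p) (hq : ContinuousOn q (Ioi 0))
    (h1q : ∀ ρ, 0 < ρ → 1 ≤ q ρ) (h01 : IntervalIntegrable (scd q) volume 0 1) {M β ρ₀ : ℝ}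
    (hρ₀ : 0 < ρ₀) (hβ : 0 < β) (hβ1 : β < 1) {g : ℝ → ℝ} (hg : ContinuousOn g (Ico 0 T))
    (hin : ∀ x, |circ (u 0) x| ≤ M)
    (hin' : ∀ x, √(sg x) ≤ ρ₀ → |circ (u 0) x| ≤ M * (scf q (√(sg x)) / scf q ρ₀) ^ β)
    (hcond : ∀ t ∈ Ioo 0 T, ∀ x, 0 < sg x → √(sg x) < ρ₀ →
      M * Real.exp (β / (4 * ν * (1 - β)) * ∫ s in (0 : ℝ)..t, g s ^ 2)
        * (scf q (√(sg x)) / scf q ρ₀) ^ β < |circ (u t) x| →
      -(ν * q (√(sg x))) - g t * √(sg x) ≤ x 0 * u t x 0 + x 1 * u t x 1) :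
    ∀ t ∈ Ico 0 T, ∀ x, √(sg x) ≤ ρ₀ → |circ (u t) x| ≤
      M * Real.exp (β / (4 * ν * (1 - β)) * ∫ s in (0 : ℝ)..t, g s ^ 2)
        * (scf q (√(sg x)) / scf q ρ₀) ^ β := by
  have e : √(ρ₀ ^ 2) = ρ₀ := Real.sqrt_sq hρ₀.le
  have hle : ∀ x : V, sg x ≤ ρ₀ ^ 2 → √(sg x) ≤ ρ₀ := fun x hx => by
    rw [← e]
    exact Real.sqrt_le_sqrt hx
  have hlt : ∀ x : V, sg x < ρ₀ ^ 2 → √(sg x) < ρ₀ := fun x hx => by
    rw [← e]
    exact Real.sqrt_lt_sqrt (sg_nonneg x) hx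
  have key := cauchy hν h (scl_scf hq h1q h01 (ρ₀ ^ 2)) (S := ρ₀ ^ 2) (by positivity)
    (fun σ hσ => scf_mono hq h01 (Real.sqrt_nonneg _) (Real.sqrt_nonneg _)
      (Real.sqrt_le_sqrt hσ)) hβ hβ1 hg hin
    (fun x hx => by
      show |circ (u 0) x| ≤ M * (scf q (√(sg x)) / scf q (√(ρ₀ ^ 2))) ^ β
      rw [e]
      exact hin' x (hle x hx))
    (fun t ht x hx hxS hlt' => by
      refine hcond t ht x hx (hlt x hxS) ?_
      have h1 : M * Real.exp (β / (4 * ν * (1 - β)) * ∫ s in (0 : ℝ)..t, g s ^ 2)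
        * (scf q (√(sg x)) / scf q (√(ρ₀ ^ 2))) ^ β < |circ (u t) x| := hlt'
      rwa [e] at h1)
  intro t ht x hx
  have h1 : sg x ≤ ρ₀ ^ 2 := by
    rw [← Real.sq_sqrt (sg_nonneg x)]
    exact pow_le_pow_left₀ (Real.sqrt_nonneg _) hx 2
  have h2 : |circ (u t) x| ≤ M * Real.exp (β / (4 * ν * (1 - β)) * ∫ s in (0 : ℝ)..t, g s ^ 2)
        * (scf q (√(sg x)) / scf q (√(ρ₀ ^ 2))) ^ β := key t ht x h1
  rwa [e] at h2

end

variable {ν : ℝ} {u : ℝ → V → V} {p : ℝ → V → ℝ}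

/-- **Ancient solutions, general profile.** -/
theorem ancFeller (hν : 0 < ν)
    (h : ∀ t₀ < 0, BSol ν (-t₀) (fun t => u (t₀ + t)) (fun t => p (t₀ + t))) {M : ℝ}
    (hM : ∀ t < 0, ∀ x, |circ (u t) x| ≤ M)
    (hcond : ∀ δ > 0, ∃ q g : ℝ → ℝ, ContinuousOn q (Ioi 0) ∧ (∀ ρ, 0 < ρ → 1 ≤ q ρ) ∧
      IntervalIntegrable (scd q) volume 0 1 ∧ Tendsto (scf q) atTop atTop ∧
      ContinuousOn g (Iio 0) ∧
      (∀ t < 0, ∃ C : ℝ, ∀ t₀ < t, ∫ s in t₀..t, g s ^ 2 ≤ C) ∧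
      ∀ t < 0, ∀ x, 0 < sg x → δ < |circ (u t) x| →
        -(ν * q (√(sg x))) - g t * √(sg x) ≤ x 0 * u t x 0 + x 1 * u t x 1) :
    ∀ t < 0, ∀ x, circ (u t) x = 0 := by
  apply ancF hν h hM
  intro δ hδ
  obtain ⟨q, g, hq, h1q, h01, hinf, hg, hC, hc⟩ := hcond δ hδ
  refine ⟨_, _, _, _, g, fun S => scl_scf hq h1q h01 S, lgd_anti hq h1q h01, fun σ hσ => ?_,
    hinf.comp Real.tendsto_sqrt_atTop, hg, hC, hc⟩
  rw [lgd_scf hσ]
  exact div_pos (scd_pos _) (scf_pos hq h01 (Real.sqrt_pos.2 hσ))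

end Pool.Agent.Y304.FT
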