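import Pool.Agent.Y304.FT.Fel

/-!
Axisymmetric flows (helper304): the logarithmic inflow profile.
-/

set_option autoImplicit false

open MeasureTheory Set Metric Filter Topology
open scoped ContDiff

namespace Pool.Agent.Y304.FT

open H459R3.NS W221.NS Pool.Agent.TH305.DR Pool.Agent.TH305.AX

/-- The scale function `|log ρ| ^ (1 - c)`, `ρ = √σ`, constant for `σ ≥ S`. -/
noncomputable def lgH (c S σ : ℝ) : ℝ := (-(Real.log (min σ S) / 2)) ^ (1 - c)

section
variable {c S : ℝ}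

lemma ell_pos {σ : ℝ} (hσ : 0 < σ) (hσ1 : σ < 1) : 0 < -(Real.log σ / 2) := by
  have := Real.log_neg hσ hσ1
  linarith

lemma lgH_in {σ : ℝ} (hσ : σ ≤ S) : lgH c S σ = (-(Real.log σ / 2)) ^ (1 - c) := by
  unfold lgH
  rw [min_eq_left hσ]

lemma lgH_hd {σ : ℝ} (hσ : 0 < σ) (hσ1 : σ < 1) :
    HasDerivAt (fun r => (-(Real.log r / 2)) ^ (1 - c))
      ((c - 1) / 2 * (σ⁻¹ * (-(Real.log σ / 2)) ^ (-c))) σ := by
  have h1 : HasDerivAt (fun r => -(Real.log r / 2)) (-(σ⁻¹ / 2)) σ :=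
    ((Real.hasDerivAt_log hσ.ne').div_const 2).neg
  have h2 := h1.rpow_const (p := 1 - c) (Or.inl (ell_pos hσ hσ1).ne')
  refine h2.congr_deriv ?_
  have : (1 - c - 1 : ℝ) = -c := by ring
  rw [this]
  ring

lemma lgH_hd2 {σ : ℝ} (hσ : 0 < σ) (hσ1 : σ < 1) :
    HasDerivAt (fun r => (c - 1) / 2 * (r⁻¹ * (-(Real.log r / 2)) ^ (-c)))
      ((c - 1) / 2 * (-(σ ^ 2)⁻¹ * (-(Real.log σ / 2)) ^ (-c)
        + σ⁻¹ * (-(σ⁻¹ / 2) * -c * (-(Real.log σ / 2)) ^ (-c - 1)))) σ := by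
  have h1 : HasDerivAt (fun r => -(Real.log r / 2)) (-(σ⁻¹ / 2)) σ :=
    ((Real.hasDerivAt_log hσ.ne').div_const 2).neg
  have h2 := h1.rpow_const (p := -c) (Or.inl (ell_pos hσ hσ1).ne')
  exact ((hasDerivAt_inv hσ.ne').mul h2).const_mul _

lemma scl_log (hc : 1 < c) (hS : 0 < S) (hS1 : S < 1) :
    Scl S (fun σ => 2 - c / |Real.log (√σ)|) (lgH c S)
      (fun r => (c - 1) / 2 * (r⁻¹ * (-(Real.log r / 2)) ^ (-c)))
      (fun σ => (c - 1) / 2 * (-(σ ^ 2)⁻¹ * (-(Real.log σ / 2)) ^ (-c)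
        + σ⁻¹ * (-(σ⁻¹ / 2) * -c * (-(Real.log σ / 2)) ^ (-c - 1)))) where
  cont := by
    intro σ hσ
    rcases (show (0 : ℝ) ≤ σ from hσ).lt_or_eq with h | h
    · apply ContinuousAt.continuousWithinAt
      unfold lgH
      have hm : 0 < min σ S := lt_min h hS
      have hm1 : min σ S < 1 := (min_le_right _ _).trans_lt hS1
      have a1 : ContinuousAt (fun r : ℝ => min r S) σ := by fun_prop
      have a2 : ContinuousAt (fun r : ℝ => -(Real.log (min r S) / 2)) σ :=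
        ((a1.log hm.ne').div_const 2).neg
      exact a2.rpow_const (Or.inl (ell_pos hm hm1).ne')
    · rw [← h]
      have hz : lgH c S 0 = 0 := by
        unfold lgH
        rw [min_eq_left hS.le, Real.log_zero]
        simp only [zero_div, neg_zero]
        exact Real.zero_rpow (by linarith)
      rw [ContinuousWithinAt, hz]
      have hsplit : Ici (0 : ℝ) = insert 0 (Ioi 0) := by
        ext y
        simp only [mem_Ici, mem_insert_iff, mem_Ioi]
        constructor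
        · intro hy
          rcases hy.lt_or_eq with h' | h'
          · exact Or.inr h'
          · exact Or.inl h'.symm
        · rintro (rfl | hy)
          · exact le_rfl
          · exact hy.le
      rw [hsplit, nhdsWithin_insert, tendsto_sup]
      refine ⟨by rw [tendsto_pure_left]; intro s hs; rw [hz]; exact mem_of_mem_nhds hs, ?_⟩
      have b1 : Tendsto (fun r : ℝ => -(Real.log r / 2)) (𝓝[>] 0) atTop := by
        have := Real.tendsto_log_nhdsGT_zero
        apply tendsto_neg_atBot_atTop.comp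
        exact this.atBot_div_const (by norm_num)
      have b2 : Tendsto (fun r : ℝ => r ^ (1 - c)) atTop (𝓝 0) := by
        have := tendsto_rpow_neg_atTop (y := c - 1) (by linarith)
        have e : (-(c - 1) : ℝ) = 1 - c := by ring
        rwa [e] at this
      refine (b2.comp b1).congr' ?_
      filter_upwards [Ioo_mem_nhdsGT hS] with r hr
      rw [lgH_in hr.2.le]
      rfl
  pos := fun σ hσ => by
    unfold lgH
    exact Real.rpow_pos_of_pos (ell_pos (lt_min hσ hS) ((min_le_right _ _).trans_lt hS1)) _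
  zero := by
    unfold lgH
    rw [min_eq_left hS.le, Real.log_zero]
    simp only [zero_div, neg_zero]
    exact Real.zero_rpow (by linarith)
  d1 := fun σ hσ => by
    refine (lgH_hd hσ.1 (hσ.2.trans hS1)).congr_of_eventuallyEq ?_
    filter_upwards [Ioo_mem_nhds hσ.1 hσ.2] with r hr
    exact lgH_in hr.2.le
  d2 := fun σ hσ => lgH_hd2 hσ.1 (hσ.2.trans hS1)
  c2 := by
    intro σ hσ
    apply ContinuousAt.continuousWithinAt
    have hl := ell_pos hσ.1 (hσ.2.trans hS1)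
    have a1 : ContinuousAt (fun r : ℝ => -(Real.log r / 2)) σ :=
      (((Real.continuousAt_log hσ.1.ne')).div_const 2).neg
    have a2 := a1.rpow_const (p := -c) (Or.inl hl.ne')
    have a3 := a1.rpow_const (p := -c - 1) (Or.inl hl.ne')
    have a4 : ContinuousAt (fun r : ℝ => r⁻¹) σ := continuousAt_inv₀ hσ.1.ne'
    have a5 : ContinuousAt (fun r : ℝ => (r ^ 2)⁻¹) σ :=
      (continuousAt_id.pow 2).inv₀ (pow_ne_zero 2 hσ.1.ne')
    exact continuousAt_const.mul ((a5.neg.mul a2).add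
      (a4.mul (((a4.div_const 2).neg.mul continuousAt_const).mul a3)))
  nn := fun σ hσ => by
    have hl := ell_pos hσ.1 (hσ.2.trans hS1)
    have h1 : 0 < σ⁻¹ := inv_pos.2 hσ.1
    have h2 : 0 < (-(Real.log σ / 2)) ^ (-c) := Real.rpow_pos_of_pos hl _
    have : 0 < c - 1 := by linarith
    positivity
  ineq := fun σ hσ => by
    have hl := ell_pos hσ.1 (hσ.2.trans hS1)
    have e1 : |Real.log (√σ)| = -(Real.log σ / 2) := by
      rw [Real.log_sqrt hσ.1.le, abs_of_neg]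
      linarith
    obtain ⟨l, hl'⟩ : ∃ l, l = -(Real.log σ / 2) := ⟨_, rfl⟩
    rw [e1, ← hl']
    rw [← hl'] at hl
    have e2 : l ^ (-c - 1) = l ^ (-c) / l := Real.rpow_sub_one hl.ne' _
    rw [e2]
    have hσ0 := hσ.1.ne'
    apply le_of_eq
    field_simp
    ring

variable {ν T : ℝ} {u : ℝ → V → V} {p : ℝ → V → ℝ}

/-- `ρ |log ρ| ^ α ≤ α ^ α`. -/
lemma rho_log {α ρ : ℝ} (hα : 0 < α) (hρ : 0 < ρ) (hρ1 : ρ < 1) :
    ρ * (-Real.log ρ) ^ α ≤ α ^ α := by
  have h1 := Real.log_le_rpow_div (x := ρ⁻¹) (ε := 1 / α) (by positivity) (by positivity)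
  rw [Real.log_inv] at h1
  have hl : 0 < -Real.log ρ := by
    have := Real.log_neg hρ hρ1
    linarith
  have h2 : (-Real.log ρ) ^ α ≤ (ρ⁻¹ ^ (1 / α) / (1 / α)) ^ α := Real.rpow_le_rpow hl.le h1 hα.le
  have h3 : (ρ⁻¹ ^ (1 / α) / (1 / α)) ^ α = ρ⁻¹ * α ^ α := by
    rw [div_div_eq_mul_div, div_one, Real.mul_rpow (by positivity) hα.le, ← Real.rpow_mul (by
      positivity), one_div_mul_cancel hα.ne', Real.rpow_one]
  rw [h3] at h2
  calc ρ * (-Real.log ρ) ^ α ≤ ρ * (ρ⁻¹ * α ^ α) := by gcongr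
    _ = α ^ α := by field_simp

/-- **The Cauchy problem, logarithmic profile.** -/
theorem cauchyLog (hν : 0 < ν) (h : BSol ν T u p) {c α ρ₀ G : ℝ} {g : ℝ → ℝ} (hα : 0 < α)
    (hαc : α < c - 1) (hρ₀ : 0 < ρ₀) (hρ₀1 : ρ₀ < 1) (hg : ContinuousOn g (Ico 0 T))
    (hG : ∀ t ∈ Ico 0 T, ∫ s in (0 : ℝ)..t, g s ^ 2 ≤ G) (hin : ∃ M, ∀ x, |circ (u 0) x| ≤ M)
    (hcond : ∀ t ∈ Ioo 0 T, ∀ x, 0 < sg x → √(sg x) < ρ₀ →
      |Real.log (√(sg x))| ^ (-α) < |circ (u t) x| →
      -(ν * (2 - c / |Real.log (√(sg x))|)) - g t * √(sg x) ≤ x 0 * u t x 0 + x 1 * u t x 1) :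
    ∃ C : ℝ, ∀ t ∈ Ico 0 T, ∀ x, 0 < sg x → √(sg x) < ρ₀ →
      |circ (u t) x| ≤ C * |Real.log (√(sg x))| ^ (-α) := by
  rcases le_or_gt T 0 with hT | hT
  · exact ⟨0, fun t ht => absurd ht.2 (not_lt.2 (hT.trans ht.1))⟩
  have hc : 1 < c := by linarith
  obtain ⟨M₀, hM₀⟩ := hin
  obtain ⟨U, hU0, hU⟩ := h.u_bdd hT
  obtain ⟨S, hSe⟩ : ∃ S : ℝ, S = ρ₀ ^ 2 := ⟨_, rfl⟩
  have hS : 0 < S := by rw [hSe]; positivity
  have hS1 : S < 1 := by rw [hSe]; nlinarith
  obtain ⟨l₀, hl₀⟩ : ∃ l₀ : ℝ, l₀ = -(Real.log S / 2) := ⟨_, rfl⟩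
  have hl₀0 : 0 < l₀ := by rw [hl₀]; exact ell_pos hS hS1
  obtain ⟨β, hβ⟩ : ∃ β : ℝ, β = α / (c - 1) := ⟨_, rfl⟩
  have hc1 : 0 < c - 1 := by linarith
  have hβ0 : 0 < β := by rw [hβ]; positivity
  have hβ1 : β < 1 := by rw [hβ, div_lt_one hc1]; exact hαc
  obtain ⟨M, hM1, hM2, hM3⟩ : ∃ M : ℝ, M₀ ≤ M ∧ 2 * U * α ^ α / l₀ ^ α ≤ M ∧
      (l₀ ^ α)⁻¹ ≤ M := by
    refine ⟨max M₀ (max (2 * U * α ^ α / l₀ ^ α) (l₀ ^ α)⁻¹), le_max_left _ _, ?_, ?_⟩
    · exact (le_max_left _ _).trans (le_max_right _ _)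
    · exact (le_max_right _ _).trans (le_max_right _ _)
  have hlα : 0 < l₀ ^ α := Real.rpow_pos_of_pos hl₀0 _
  have hM0 : 0 < M := lt_of_lt_of_le (inv_pos.2 hlα) hM3
  have habs : ∀ x : V, 0 < sg x → sg x < 1 →
      |Real.log (√(sg x))| = -(Real.log (sg x) / 2) := by
    intro x h1 h2
    have := Real.log_neg h1 h2
    rw [Real.log_sqrt h1.le, abs_of_neg]
    linarith
  -- the ratio of the scale functions
  have hrat : ∀ x : V, 0 < sg x → sg x ≤ S →
      (lgH c S (sg x) / lgH c S S) ^ β = l₀ ^ α * |Real.log (√(sg x))| ^ (-α) := by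
    intro x h1 h2
    have h3 : sg x < 1 := h2.trans_lt hS1
    have hl := ell_pos h1 h3
    rw [lgH_in h2, lgH_in le_rfl, ← hl₀, habs x h1 h3]
    obtain ⟨l, hle⟩ : ∃ l, l = -(Real.log (sg x) / 2) := ⟨_, rfl⟩
    rw [← hle] at hl ⊢
    rw [Real.div_rpow (Real.rpow_nonneg hl.le _) (Real.rpow_nonneg hl₀0.le _),
      ← Real.rpow_mul hl.le, ← Real.rpow_mul hl₀0.le]
    have e : (1 - c) * β = -α := by
      rw [hβ]
      field_simp
      ring
    rw [e, Real.rpow_neg hl₀0.le]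
    field_simp
  have hlt : ∀ x : V, sg x < S → √(sg x) < ρ₀ := fun x hx => by
    rw [← Real.sqrt_sq hρ₀.le, ← hSe]
    exact Real.sqrt_lt_sqrt (sg_nonneg x) hx
  obtain ⟨k, hk⟩ : ∃ k : ℝ, k = β / (4 * ν * (1 - β)) := ⟨_, rfl⟩
  have hk0 : 0 < k := by
    rw [hk]
    have : 0 < 1 - β := by linarith
    positivity
  have key := cauchy hν h (scl_log hc hS hS1) hS
    (fun σ hσ => by
      unfold lgH
      rw [min_self, min_eq_right hσ]) (M := M) hβ0 hβ1 hg (fun x => (hM₀ x).trans hM1)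
    (fun x hx => by
      rcases (sg_nonneg x).lt_or_eq with h1 | h1
      · rw [hrat x h1 hx]
        have h3 : sg x < 1 := hx.trans_lt hS1
        have hs : 0 < √(sg x) := Real.sqrt_pos.2 h1
        have hs1 : √(sg x) < 1 := by
          rw [← Real.sqrt_one]
          exact Real.sqrt_lt_sqrt h1.le h3
        have h4 := rho_log hα hs hs1
        have hl := ell_pos h1 h3
        have e1 : -Real.log (√(sg x)) = -(Real.log (sg x) / 2) := by rw [Real.log_sqrt h1.le]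
        rw [habs x h1 h3]
        rw [e1] at h4
        obtain ⟨l, hle⟩ : ∃ l, l = -(Real.log (sg x) / 2) := ⟨_, rfl⟩
        rw [← hle] at hl h4 ⊢
        have hlp : 0 < l ^ α := Real.rpow_pos_of_pos hl _
        have h5 : √(sg x) ≤ α ^ α * l ^ (-α) := by
          rw [Real.rpow_neg hl.le, ← div_eq_mul_inv, le_div_iff₀ hlp]
          exact h4
        calc |circ (u 0) x| ≤ 2 * √(sg x) * ‖u 0 x‖ := circ_le _ _
          _ ≤ 2 * (α ^ α * l ^ (-α)) * U := by
            have := hU 0 ⟨le_rfl, le_rfl⟩ x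
            gcongr
          _ = (2 * U * α ^ α / l₀ ^ α) * (l₀ ^ α * l ^ (-α)) := by
            field_simp
          _ ≤ M * (l₀ ^ α * l ^ (-α)) := by
            have : 0 < l ^ (-α) := Real.rpow_pos_of_pos hl _
            gcongr
      · have h2 := circ_le (u 0) x
        rw [← h1, Real.sqrt_zero] at h2
        have h6 : 0 ≤ M * (lgH c S (sg x) / lgH c S S) ^ β := by
          apply mul_nonneg hM0.le
          apply Real.rpow_nonneg
          exact div_nonneg ((scl_log hc hS hS1).nonneg (sg_nonneg x))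
            ((scl_log hc hS hS1).nonneg hS.le)
        linarith)
    (fun t ht x hx hxS hlt' => by
      apply hcond t ht x hx (hlt x hxS)
      refine lt_of_le_of_lt ?_ hlt'
      rw [hrat x hx hxS.le, ← hk]
      have h3 : sg x < 1 := hxS.trans hS1
      have hl := ell_pos hx h3
      rw [habs x hx h3]
      have hlp : 0 < (-(Real.log (sg x) / 2)) ^ (-α) := Real.rpow_pos_of_pos hl _
      have h7 : 1 ≤ M * l₀ ^ α := by
        have := mul_le_mul_of_nonneg_right hM3 hlα.le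
        rwa [inv_mul_cancel₀ hlα.ne'] at this
      have h8 : 1 ≤ Real.exp (k * ∫ s in (0 : ℝ)..t, g s ^ 2) := by
        apply Real.one_le_exp
        exact mul_nonneg hk0.le (prim_nonneg (B := fun s => g s ^ 2) (fun s _ => sq_nonneg _)
          (Ioo_subset_Ico_self ht))
      calc (-(Real.log (sg x) / 2)) ^ (-α) = 1 * 1 * (-(Real.log (sg x) / 2)) ^ (-α) := by ring
        _ ≤ (M * l₀ ^ α) * Real.exp (k * ∫ s in (0 : ℝ)..t, g s ^ 2)
            * (-(Real.log (sg x) / 2)) ^ (-α) := by gcongr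
        _ = _ := by ring)
  refine ⟨M * Real.exp (k * G) * l₀ ^ α, fun t ht x hx hxρ => ?_⟩
  have hxS : sg x ≤ S := by
    rw [hSe, ← Real.sq_sqrt (sg_nonneg x)]
    exact pow_le_pow_left₀ (Real.sqrt_nonneg _) hxρ.le 2
  have h1 := key t ht x hxS
  rw [hrat x hx hxS, ← hk] at h1
  have h3 : sg x < 1 := hxS.trans_lt hS1
  have hl := ell_pos hx h3
  have hlp : 0 < |Real.log (√(sg x))| ^ (-α) := by
    rw [habs x hx h3]
    exact Real.rpow_pos_of_pos hl _
  have h2 : Real.exp (k * ∫ s in (0 : ℝ)..t, g s ^ 2) ≤ Real.exp (k * G) :=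
    Real.exp_le_exp.2 (mul_le_mul_of_nonneg_left (hG t ht) hk0.le)
  calc |circ (u t) x| ≤ _ := h1
    _ ≤ M * Real.exp (k * G) * (l₀ ^ α * |Real.log (√(sg x))| ^ (-α)) := by gcongr
    _ = _ := by ring

end

end Pool.Agent.Y304.FT
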